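import Pool.Agent.Lib.MP_58f2bb_an.Heat
import Pool.Agent.Lib.MP_58f2bb_an.Test

/-!
# The free heat semigroup of a matrix model need not be compact

For every `m ≥ 1` the model with potential `P = ∑ X_i ^ 2 - 2 X_0 ^ 2 + X_0 ^ 4 / 4` converges, its
limit has conjugate variables, and `exp (- s Δ)` is not compact for any `s > 0`.
-/

open scoped TensorProduct InnerProductSpace LinearPMap

namespace Pool.Agent.Results.MP_58f2bb_an.NotCompact

open Pool.Agent.Lib.MP_58f2bb_an

universe u

/-- For every `m ≥ 1`, the potential `P = crit m` is self-adjoint, and the model with potential `P`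
has a limit. For every such limit `(H, a, Ω)` there are no polynomial relations and the conjugate
variables exist. The operator `∂* ∂̄` is a positive self-adjoint operator which agrees with
`∑ ∂_i* ∂_i` on polynomials, and for every positive self-adjoint operator `Δ` with this property,
the semigroup `exp (- s Δ)` exists, and `exp (- s Δ)` is not compact for any `s > 0`. -/
theorem result (m : ℕ) [NeZero m] (H : Type u) [NormedAddCommGroup H] [InnerProductSpace ℂ H]
    [CompleteSpace H] (a : Fin m → H →L[ℂ] H) (Ω : H) :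
    adj (crit m) = crit m ∧ HasLimit (crit m) ∧
    (IsLimit (crit m) a Ω → HasConjugateVariables a Ω ∧ IsFreeLaplacian a Ω (freeLaplacian a Ω) ∧
      ∀ Δ : H →ₗ.[ℂ] H, IsFreeLaplacian a Ω Δ →
        (∃ S : ℝ → H →L[ℂ] H, IsHeatSemigroup Δ S) ∧
        ∀ S : ℝ → H →L[ℂ] H, IsHeatSemigroup Δ S → ∀ s, 0 < s → ¬ IsCompactOperator (S s)) := by
  refine ⟨?_, ⟨GH m, inferInstance, inferInstance, inferInstance, ga, gO, exists_limit⟩, ?_⟩
  · have h2 : (starRingEnd ℂ) (-2) = -2 := by rw [map_neg, map_ofNat]
    have h4 : (starRingEnd ℂ) (1 / 4) = 1 / 4 := by rw [map_div₀, map_one, map_ofNat]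
    have h : ∀ s : Finset (Fin m), adj (∑ i ∈ s, X i ^ 2) = ∑ i ∈ s, X i ^ 2 := by
      classical
      intro s
      induction s using Finset.induction_on with
      | empty => simp [adj_zero]
      | insert i s hi ih => rw [Finset.sum_insert hi, adj_add, ih, adj_pow, adj_X]
    rw [crit, adj_add, adj_add, adj_smul, adj_smul, adj_pow, adj_pow, adj_X, h2, h4, h]
  · intro h
    have hg : Good a Ω := h.good
    refine ⟨⟨fun p hp => hg.no_relations hp, hg.graph_fdqOp, hg.dense_domain, hg.isClosable,
      fun i => LinearPMap.mem_domain_of_mem_graph (hg.conjugate i)⟩,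
      hg.isFreeLaplacian, fun Δ hΔ => ⟨?_, fun S hS s hs => not_compact hg hΔ hS hs⟩⟩
    exact NonnegSA.exists_heat ⟨hΔ.selfAdjoint, fun hxy => hΔ.nonneg _ _ hxy⟩

end Pool.Agent.Results.MP_58f2bb_an.NotCompact
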